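import Pool.Agent.Helper14.CV.StA

/-!
# Project CV, module A6: maximum principle
-/

set_option autoImplicit false

namespace Pool.Agent.Helper96.CV

open Pool.Agent.Helper14.CV
open UpperHalfPlane CongruenceSubgroup Filter
open scoped MatrixGroups ComplexConjugate

/-- the upper half plane as a subset of the complex numbers -/
private def UU : Set ℂ := {z | 0 < z.im}

private lemma open_UU : IsOpen UU := isOpen_lt continuous_const Complex.continuous_im

private lemma conn_UU : IsPreconnected UU := (convex_halfSpace_im_gt 0).isPreconnected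

/-- reflection of the upper half plane -/
private noncomputable def JJ (z : ℍ) : ℍ := ⟨-conj (z : ℂ), by simpa using z.im_pos⟩

private lemma coe_JJ (z : ℍ) : ((JJ z : ℍ) : ℂ) = -conj (z : ℂ) := rfl

private lemma im_JJ (z : ℍ) : (JJ z).im = z.im := by
  show (-conj (z : ℂ)).im = (z : ℂ).im
  simp

private lemma tendsto_JJ : Tendsto JJ atImInfty atImInfty := by
  rw [atImInfty, tendsto_comap_iff]
  have h : UpperHalfPlane.im ∘ JJ = UpperHalfPlane.im := by
    funext z
    exact im_JJ z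
  rw [h]
  exact tendsto_comap

/-- reflection of a matrix -/
private def RR (γ : SL(2, ℤ)) : SL(2, ℤ) :=
  ⟨!![γ 0 0, -γ 0 1; -γ 1 0, γ 1 1], by
    have h := γ.det_coe
    rw [Matrix.det_fin_two] at h
    rw [Matrix.det_fin_two_of]
    linarith⟩

private lemma RR00 (γ : SL(2, ℤ)) : (RR γ) 0 0 = γ 0 0 := rfl
private lemma RR01 (γ : SL(2, ℤ)) : (RR γ) 0 1 = -γ 0 1 := rfl
private lemma RR10 (γ : SL(2, ℤ)) : (RR γ) 1 0 = -γ 1 0 := rfl
private lemma RR11 (γ : SL(2, ℤ)) : (RR γ) 1 1 = γ 1 1 := rfl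

private lemma coe_act (γ : SL(2, ℤ)) (z : ℍ) : ((γ • z : ℍ) : ℂ) =
    ((γ 0 0 : ℤ) * (z : ℂ) + (γ 0 1 : ℤ)) / ((γ 1 0 : ℤ) * (z : ℂ) + (γ 1 1 : ℤ)) := by
  rw [coe_specialLinearGroup_apply]
  simp

private lemma JJ_act (γ : SL(2, ℤ)) (z : ℍ) : JJ (γ • z) = RR γ • JJ z := by
  apply UpperHalfPlane.ext
  rw [coe_JJ, coe_act, coe_act, coe_JJ, RR00, RR01, RR10, RR11]
  simp only [map_div₀, map_add, map_mul, map_intCast]
  push_cast
  rw [← neg_div]
  congr 1
  · ring
  · ring

private lemma RR_mem {N : ℕ} {γ : SL(2, ℤ)} (h : γ ∈ Gamma0 N) : RR γ ∈ Gamma0 N := by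
  rw [Gamma0_mem] at h ⊢
  rw [RR10]
  push_cast
  rw [h, neg_zero]

/-- the maximum principle for the real part of a holomorphic function -/
private lemma re_nonpos (h6a : StA6a) (N : ℕ) (hN : NeZero N) (h : ℂ → ℂ)
    (hd : DifferentiableOn ℂ h UU)
    (hinv : ∀ γ ∈ Gamma0 N, ∀ z : ℍ, (h ((γ • z : ℍ) : ℂ)).re = (h (z : ℂ)).re)
    (hlim : ∀ γ : SL(2, ℤ), Tendsto (fun z : ℍ => (h ((γ • z : ℍ) : ℂ)).re) atImInfty (nhds 0))
    (z : ℍ) : (h (z : ℂ)).re ≤ 0 := by
  by_contra hz
  push Not at hz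
  have hc : Continuous fun z : ℍ => (h (z : ℂ)).re :=
    Complex.continuous_re.comp (hd.continuousOn.comp_continuous UpperHalfPlane.continuous_coe
      fun z => z.im_pos)
  obtain ⟨z₀, hz₀⟩ := h6a N hN (fun z : ℍ => (h (z : ℂ)).re) hc hinv hlim ⟨z, hz⟩
  have hE : Set.EqOn (fun w => Complex.exp (h w)) (Function.const ℂ (Complex.exp (h (z₀ : ℂ))))
      UU := by
    refine Complex.eqOn_of_isPreconnected_of_isMaxOn_norm conn_UU open_UU ?_ z₀.im_pos ?_
    · exact hd.cexp
    · intro w hw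
      show ‖Complex.exp (h w)‖ ≤ ‖Complex.exp (h (z₀ : ℂ))‖
      rw [Complex.norm_exp, Complex.norm_exp]
      exact Real.exp_le_exp.2 (hz₀ ⟨w, hw⟩)
  have hre : ∀ w : ℍ, (h (w : ℂ)).re = (h (z₀ : ℂ)).re := by
    intro w
    have h1 := congrArg norm (hE w.im_pos)
    simp only [Function.const_apply] at h1
    rw [Complex.norm_exp, Complex.norm_exp] at h1
    exact Real.exp_injective h1
  have hl := hlim 1
  simp only [one_smul, hre] at hl
  have h0 := tendsto_nhds_unique hl tendsto_const_nhds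
  rw [← hre z] at h0
  linarith

/-- a holomorphic function with real part zero has derivative zero -/
private lemma deriv_zero (h h' : ℂ → ℂ) (hd : ∀ z ∈ UU, HasDerivAt h (h' z) z)
    (hre : ∀ z : ℍ, (h (z : ℂ)).re = 0) : ∀ z ∈ UU, h' z = 0 := by
  intro z hz
  have hE : Set.EqOn (fun w => Complex.exp (h w)) (Function.const ℂ (Complex.exp (h z))) UU := by
    refine Complex.eqOn_of_isPreconnected_of_isMaxOn_norm conn_UU open_UU ?_ hz ?_
    · exact fun w hw => ((hd w hw).differentiableAt.cexp).differentiableWithinAt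
    · intro w hw
      show ‖Complex.exp (h w)‖ ≤ ‖Complex.exp (h z)‖
      rw [Complex.norm_exp, Complex.norm_exp]
      exact le_of_eq (by rw [hre ⟨w, hw⟩, hre ⟨z, hz⟩])
  have h1 : HasDerivAt (fun w => Complex.exp (h w)) (Complex.exp (h z) * h' z) z := (hd z hz).cexp
  have h2 : HasDerivAt (fun w => Complex.exp (h w)) 0 z := by
    refine (hasDerivAt_const z (Complex.exp (h z))).congr_of_eventuallyEq ?_
    filter_upwards [open_UU.mem_nhds hz] with w hw
    exact hE hw
  have h3 := h1.unique h2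
  rcases mul_eq_zero.1 h3 with h4 | h4
  · exact absurd h4 (Complex.exp_ne_zero _)
  · exact h4

/-- A6. Maximum principle. -/
theorem hA6 (h1 : StA1) (h1b : StA1b) (h3 : StA3) (h6a : StA6a) (h6b : StA6b) (hP1 : StP1) :
    StA6 := by
  intro N hN f G k hG hk
  have hhom := hP1 N hN f G hG
  -- the reflected primitive
  set F : ℂ → ℂ := Fp f with hF
  set R : ℂ → ℂ := fun z => conj (F (-conj z)) with hR
  have hFd : ∀ z ∈ UU, HasDerivAt F (2 * Real.pi * Complex.I * fz f z) z :=
    fun z hz => (h1 N hN f z hz).2.2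
  have hRd : ∀ z ∈ UU, HasDerivAt R
      (conj (-(2 * Real.pi * Complex.I * fz f (-conj z)))) z := by
    intro z hz
    have hz' : (-conj z) ∈ UU := by
      show 0 < (-conj z).im
      have hz2 : 0 < z.im := hz
      simpa using hz2
    have h2 : HasDerivAt (fun w => F (-w)) (-(2 * Real.pi * Complex.I * fz f (-conj z)))
        (conj z) := by
      have h3 := HasDerivAt.comp (conj z) (hFd _ hz') (hasDerivAt_neg (conj z))
      rw [mul_neg_one] at h3
      exact h3
    have h4 := h2.conj_conj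
    rw [Complex.conj_conj] at h4
    exact h4
  -- limits
  have hlimF : ∀ γ : SL(2, ℤ), Tendsto (fun z : ℍ => F ((γ • z : ℍ) : ℂ)) atImInfty
      (nhds (G (γ 0 0) (γ 1 0))) := h6b N hN f G hG
  have hlimJ : ∀ γ : SL(2, ℤ), Tendsto (fun z : ℍ => F (-conj ((γ • z : ℍ) : ℂ))) atImInfty
      (nhds (G (γ 0 0) (-γ 1 0))) := by
    intro γ
    have h2 := (hlimF (RR γ)).comp tendsto_JJ
    rw [RR00, RR10] at h2
    refine h2.congr fun z => ?_
    show F ((RR γ • JJ z : ℍ) : ℂ) = F (-conj ((γ • z : ℍ) : ℂ))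
    rw [← JJ_act, coe_JJ]
  have hG10 : G 1 0 = 0 := by
    obtain ⟨C, hC⟩ := h1b N hN f
    have h2 := hlimF 1
    have h20 : Tendsto (fun z : ℍ => F (z : ℂ)) atImInfty (nhds (G 1 0)) := by simpa using h2
    have h4 : Tendsto (fun z : ℍ => F (z : ℂ)) atImInfty (nhds 0) := by
      rw [tendsto_zero_iff_norm_tendsto_zero]
      have h5 : Tendsto (fun z : ℍ => C * Real.exp (-2 * Real.pi * z.im)) atImInfty (nhds 0) := by
        have h6 : Tendsto (fun y : ℝ => C * Real.exp (-2 * Real.pi * y)) atTop (nhds 0) := by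
          have h7 : Tendsto (fun y : ℝ => Real.exp (-2 * Real.pi * y)) atTop (nhds 0) := by
            refine Real.tendsto_exp_atBot.comp ?_
            have h8 : (-2 * Real.pi) < 0 := by
              have := Real.pi_pos
              linarith
            exact tendsto_id.const_mul_atTop_of_neg h8
          simpa using h7.const_mul C
        exact h6.comp tendsto_comap
      refine squeeze_zero' (Eventually.of_forall fun z => norm_nonneg _) ?_ h5
      have h9 : {z : ℍ | 1 ≤ z.im} ∈ atImInfty := (atImInfty_mem _).2 ⟨1, fun z hz => hz⟩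
      filter_upwards [h9] with z hz
      exact hC z hz
    exact tendsto_nhds_unique h20 h4
  have hk0 : k = 0 := by
    have h2 := hk 1 0 (Or.inl one_ne_zero)
    have h3 := hhom (-1) 1 0 (by norm_num) (Or.inl one_ne_zero)
    simp only [mul_one, mul_zero] at h3
    rw [h3, hG10] at h2
    rw [← h2]
    simp
  have hsum : ∀ γ : SL(2, ℤ), G (γ 0 0) (γ 1 0) + G (γ 0 0) (-γ 1 0) = 0 := by
    intro γ
    have hne : γ 0 0 ≠ 0 ∨ γ 1 0 ≠ 0 := by
      by_contra hcon
      push Not at hcon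
      have h := γ.det_coe
      rw [Matrix.det_fin_two, hcon.1, hcon.2] at h
      simp at h
    have h2 := hk _ _ hne
    have h3 := hhom (-1) (-γ 0 0) (γ 1 0) (by norm_num) (by simpa using hne)
    simp only [neg_mul, one_mul, neg_neg] at h3
    rw [h3, h2, hk0]
  -- the invariant function
  have hinvF : ∀ γ ∈ Gamma0 N, ∀ z : ℍ, F ((γ • z : ℍ) : ℂ) = F (z : ℂ) + G (γ 0 0) (γ 1 0) := by
    intro γ hγ
    have hdet : γ 0 0 * γ 1 1 - γ 0 1 * γ 1 0 = 1 := by
      have h := γ.det_coe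
      rw [Matrix.det_fin_two] at h
      exact h
    have hdvd : (N : ℤ) ∣ γ 1 0 := by
      rw [Gamma0_mem] at hγ
      exact (ZMod.intCast_zmod_eq_zero_iff_dvd _ _).1 hγ
    obtain ⟨κ, hκ⟩ := h3 N hN f (γ 0 0) (γ 0 1) (γ 1 0) (γ 1 1) hdet hdvd
    have h4 : ∀ z : ℍ, F ((γ • z : ℍ) : ℂ) = F (z : ℂ) + κ := by
      intro z
      rw [coe_act]
      exact hκ z z.im_pos
    have h5 := hlimF γ
    have h6 : Tendsto (fun z : ℍ => F ((γ • z : ℍ) : ℂ)) atImInfty (nhds (G 1 0 + κ)) := by
      have h7 := hlimF 1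
      have h8 : Tendsto (fun z : ℍ => F (z : ℂ)) atImInfty (nhds (G 1 0)) := by simpa using h7
      refine (h8.add_const κ).congr fun z => ?_
      rw [h4]
    have h9 := tendsto_nhds_unique h5 h6
    rw [hG10, zero_add] at h9
    intro z
    rw [h4, h9]
  have hinvJ : ∀ γ ∈ Gamma0 N, ∀ z : ℍ, F (-conj ((γ • z : ℍ) : ℂ)) =
      F (-conj (z : ℂ)) + G (γ 0 0) (-γ 1 0) := by
    intro γ hγ z
    have h2 := hinvF (RR γ) (RR_mem hγ) (JJ z)
    rw [RR00, RR10, ← JJ_act, coe_JJ, coe_JJ] at h2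
    exact h2
  have hS : ∀ γ ∈ Gamma0 N, ∀ z : ℍ, F ((γ • z : ℍ) : ℂ) + F (-conj ((γ • z : ℍ) : ℂ)) =
      F (z : ℂ) + F (-conj (z : ℂ)) := by
    intro γ hγ z
    rw [hinvF γ hγ, hinvJ γ hγ]
    linear_combination hsum γ
  have hSl : ∀ γ : SL(2, ℤ), Tendsto (fun z : ℍ => F ((γ • z : ℍ) : ℂ) +
      F (-conj ((γ • z : ℍ) : ℂ))) atImInfty (nhds 0) := by
    intro γ
    have h2 := (hlimF γ).add (hlimJ γ)
    rwa [hsum γ] at h2
  -- real and imaginary part
  have key : ∀ (θ : ℂ →L[ℝ] ℝ) (h : ℂ → ℂ), DifferentiableOn ℂ h UU →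
      (∀ z : ℍ, (h (z : ℂ)).re = θ (F (z : ℂ) + F (-conj (z : ℂ)))) →
      ∀ z : ℍ, θ (F (z : ℂ) + F (-conj (z : ℂ))) ≤ 0 := by
    intro θ h hd hθ z
    rw [← hθ z]
    refine re_nonpos h6a N hN h hd ?_ ?_ z
    · intro γ hγ w
      rw [hθ, hθ, hS γ hγ]
    · intro γ
      have h2 := (θ.continuous.tendsto 0).comp (hSl γ)
      rw [map_zero] at h2
      refine h2.congr fun w => ?_
      exact (hθ (γ • w)).symm
  have hFD : DifferentiableOn ℂ F UU :=
    fun z hz => (hFd z hz).differentiableAt.differentiableWithinAt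
  have hRD : DifferentiableOn ℂ R UU :=
    fun z hz => (hRd z hz).differentiableAt.differentiableWithinAt
  have hre : ∀ z : ℍ, (F (z : ℂ) + F (-conj (z : ℂ))).re = 0 := by
    intro z
    have h2 := key Complex.reCLM (fun z => F z + R z) (hFD.add hRD)
      (fun w => by simp [hR]) z
    have h3 := key (-Complex.reCLM) (fun z => -(F z + R z)) (hFD.add hRD).neg
      (fun w => by simp [hR]) z
    simp only [neg_apply, Complex.reCLM_apply] at h2 h3
    linarith
  have him : ∀ z : ℍ, (F (z : ℂ) + F (-conj (z : ℂ))).im = 0 := by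
    intro z
    have h2 := key Complex.imCLM (fun z => -Complex.I * (F z - R z))
      ((hFD.sub hRD).const_mul _) (fun w => by simp [hR]) z
    have h3 := key (-Complex.imCLM) (fun z => Complex.I * (F z - R z))
      ((hFD.sub hRD).const_mul _) (fun w => by simp [hR]) z
    simp only [neg_apply, Complex.imCLM_apply] at h2 h3
    linarith
  -- the derivative of `F` is zero
  have hd1 := deriv_zero (fun z => F z + R z) _ (fun z hz => (hFd z hz).add (hRd z hz))
    (fun z => by
      have h2 := hre z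
      simpa [hR] using h2)
  have hd2 := deriv_zero (fun z => -Complex.I * (F z - R z)) _
    (fun z hz => ((hFd z hz).sub (hRd z hz)).const_mul (-Complex.I))
    (fun z => by
      have h2 := him z
      simpa [hR] using h2)
  have hfz : ∀ z ∈ UU, fz f z = 0 := by
    intro z hz
    have e1 := hd1 z hz
    have e2 := hd2 z hz
    have e3 := (mul_eq_zero.1 e2).resolve_left (neg_ne_zero.2 Complex.I_ne_zero)
    have e4 : 2 * Real.pi * Complex.I * fz f z = 0 := by
      linear_combination (1 / 2 : ℂ) * e1 + (1 / 2 : ℂ) * e3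
    have e5 : (2 * Real.pi * Complex.I : ℂ) ≠ 0 := by
      simp [Real.pi_ne_zero, Complex.I_ne_zero]
    exact (mul_eq_zero.1 e4).resolve_left e5
  ext z
  have h2 := hfz (z : ℂ) z.im_pos
  rw [fz, ofComplex_apply] at h2
  simpa using h2

end Pool.Agent.Helper96.CV
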